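import Pool.Agent.V8H47.MH.Obliv

/-!
# The time of the oblivious simulation
-/

namespace Pool.Agent.V8H47.OW

open Pool.Agent.V8H47.MH

variable {α : Type} {k : ℕ} {Γ : Type}

theorem mirror_le {r j k t : ℕ} (hr : 0 < r) (hj : j ≤ k) : mirror r j t ≤ t + 2 * r ^ k := by
  have h1 : r ^ j ≤ r ^ k := Nat.pow_le_pow_right hr hj
  have h2 := Nat.div_add_mod t (r ^ j)
  unfold mirror
  have h3 : (t / r ^ j + 1) * r ^ j = r ^ j * (t / r ^ j) + r ^ j := by ring
  have h4 := Nat.mod_lt t (Nat.pow_pos (n := j) hr)
  rw [h3]
  generalize r ^ j * (t / r ^ j) = A at *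
  generalize t % r ^ j = B at *
  generalize r ^ j = P at *
  omega

/-- the moving phase, with its time -/
theorem run_mv (M : PDA α (Fin k) Γ) (w : List α) (q : M.Q) (m : Fin k → Dir) (p : Fin k → ℕ)
    (σ : List Γ) (i : ℕ) (hi : i ≤ k) {t : ℕ}
    (h : M.MReach w (MS.mv q m ⟨i, by omega⟩) t σ)
    (hp : ∀ l : Fin k, tup k (w.length + 2) t l = if (l : ℕ) < i then (m l).move w.length (p l) else p l) :
    ∃ t', t' ≤ t + (4 * (k - i) + 2) * (w.length + 2) ^ k ∧ M.MReach w (MS.main q) t' σ ∧
      tup k (w.length + 2) t' = fun l => (m l).move w.length (p l) := by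
  have hr : 0 < w.length + 2 := by omega
  have htop := fun t => mirror_top (k := k) (w.length + 2) t hr
  have hlt : ∀ t (i : Fin k), tup k (w.length + 2) t i < w.length + 2 := fun t i => zig_lt hr _
  obtain ⟨e, he⟩ := Nat.exists_eq_add_of_le hi
  induction e generalizing i t with
  | zero =>
    have hik : ¬ (i < k) := by omega
    have := PDA.MReach.mir (j := Fin.last k) (s' := MS.main q) h (by
      change _ = mvAct M.Q q m _ _ _
      unfold mvAct
      simp [hik])
    refine ⟨_, ?_, this, ?_⟩
    · have h1 := mirror_le (r := w.length + 2) (j := k) (k := k) (t := t) hr le_rfl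
      simp only [Fin.val_last]
      have e1 : 4 * (k - i) + 2 = 2 := by omega
      rw [e1]
      exact h1
    · simp only [Fin.val_last]
      rw [(htop t).1]
      funext l
      rw [hp]
      have : (l : ℕ) < i := by omega
      simp [this]
  | succ e ih =>
    have hik : i < k := by omega
    have hpi : tup k (w.length + 2) t ⟨i, hik⟩ = p ⟨i, hik⟩ := by
      rw [hp]; simp
    have hlti := hlt t ⟨i, hik⟩
    have hsum : ∀ t₁ t₂, t₁ ≤ t + 4 * (w.length + 2) ^ k →
        t₂ ≤ t₁ + (4 * (k - (i + 1)) + 2) * (w.length + 2) ^ k →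
        t₂ ≤ t + (4 * (k - i) + 2) * (w.length + 2) ^ k := by
      intro t₁ t₂ h1 h2
      have e1 : 4 * (k - i) + 2 = (4 * (k - (i + 1)) + 2) + 4 := by omega
      rw [e1, add_mul]
      omega
    cases hw : want (m ⟨i, hik⟩) (syms w k t ⟨i, hik⟩) with
    | none =>
      have hmv := want_none w hlti hw
      have := PDA.MReach.mir (j := Fin.last k) (s' := MS.mv q m ⟨i + 1, by omega⟩) h (by
        change _ = mvAct M.Q q m _ _ _
        unfold mvAct
        simp [hik, hw])
      obtain ⟨t', h1, h2, h3⟩ := ih (i + 1) (by omega) this (fun l => by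
        simp only [Fin.val_last]
        rw [(htop t).1, hp]
        by_cases hl : (l : ℕ) < i
        · have : (l : ℕ) < i + 1 := by omega
          simp [hl, this]
        · by_cases hl2 : (l : ℕ) = i
          · have : l = ⟨i, hik⟩ := Fin.ext hl2
            subst this
            rw [hpi] at hmv
            simp [hmv]
          · have : ¬ (l : ℕ) < i + 1 := by omega
            simp [hl, this]) (by omega)
      refine ⟨t', hsum _ _ ?_ h1, h2, h3⟩
      have h4 := mirror_le (r := w.length + 2) (j := k) (k := k) (t := t) hr le_rfl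
      simp only [Fin.val_last]
      omega
    | some b =>
      have hmv := want_some w hlti hw
      -- once the direction is right
      have key : ∀ t₁, t₁ ≤ t + 2 * (w.length + 2) ^ k →
          M.MReach w (MS.mv q m ⟨i, by omega⟩) t₁ σ →
          tup k (w.length + 2) t₁ = tup k (w.length + 2) t →
          dirs k (w.length + 2) t₁ ⟨i, hik⟩ = b →
          ∃ t', t' ≤ t + (4 * (k - i) + 2) * (w.length + 2) ^ k ∧ M.MReach w (MS.main q) t' σ ∧
            tup k (w.length + 2) t' = fun l => (m l).move w.length (p l) := by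
        intro t₁ hle h₁ ht₁ hb
        have hsy : syms w k t₁ = syms w k t := by
          funext l; unfold syms; rw [ht₁]
        have := PDA.MReach.mir (j := ⟨i, by omega⟩) (s' := MS.mv q m ⟨i + 1, by omega⟩) h₁ (by
          change _ = mvAct M.Q q m _ _ _
          unfold mvAct
          simp [hik, hsy, hw, hb])
        have hne : (t₁ / (w.length + 2) ^ (((⟨i, hik⟩ : Fin k)) : ℕ)) % (w.length + 2) ≠
            w.length + 2 - 1 := by
          have h1 := (atEnd_syms w k t₁ ⟨i, hik⟩).not.1
          rw [hb, hsy] at h1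
          have h2 := h1 hmv.1
          simpa using h2
        obtain ⟨t', h1, h2, h3⟩ := ih (i + 1) (by omega) this (fun l => by
          have hml := mirror_level (k := k) (w.length + 2) t₁ hr ⟨i, hik⟩ hne l
          simp only at hml ⊢
          rw [hml]
          by_cases hl2 : l = ⟨i, hik⟩
          · subst hl2
            simp only [if_true, hb, ht₁]
            rw [hpi] at hmv
            rw [hpi]
            have : (i : ℕ) < i + 1 := by omega
            simp only [this, if_true]
            exact hmv.2.symm
          · simp only [hl2, if_false]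
            rw [ht₁, hp]
            have hl3 : (l : ℕ) ≠ i := fun h' => hl2 (Fin.ext h')
            by_cases hl : (l : ℕ) < i
            · have : (l : ℕ) < i + 1 := by omega
              simp [hl, this]
            · have : ¬ (l : ℕ) < i + 1 := by omega
              simp [hl, this]) (by omega)
        refine ⟨t', hsum _ _ ?_ h1, h2, h3⟩
        have h4 := mirror_le (r := w.length + 2) (j := i) (k := k) (t := t₁) hr hik.le
        simp only
        omega
      by_cases hb : dirs k (w.length + 2) t ⟨i, hik⟩ = b
      · exact key t (by omega) h rfl hb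
      · have := PDA.MReach.mir (j := Fin.last k) (s' := MS.mv q m ⟨i, by omega⟩) h (by
          change _ = mvAct M.Q q m _ _ _
          unfold mvAct
          simp [hik, hw, hb])
        refine key _ ?_ this ?_ ?_
        · have h4 := mirror_le (r := w.length + 2) (j := k) (k := k) (t := t) hr le_rfl
          simp only [Fin.val_last]
          exact h4
        · simp only [Fin.val_last]; exact (htop t).1
        · simp only [Fin.val_last]
          rw [(htop t).2]
          cases h1 : dirs k (w.length + 2) t ⟨i, hik⟩ <;> cases b <;> simp_all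

theorem reach_toSM (M : PDA α (Fin k) Γ) (w : List α) (n : ℕ) (c : PCfg M.Q (Fin k) Γ)
    (h : M.ReachIn w n c) :
    ∃ t, t ≤ n * ((4 * k + 4) * (w.length + 2) ^ k) ∧ M.MReach w (MS.main c.q) t c.st ∧
      tup k (w.length + 2) t = c.pos := by
  have hr : 0 < w.length + 2 := by omega
  induction n generalizing c with
  | zero =>
    have : c = M.start := h
    subst this
    refine ⟨0, Nat.zero_le _, SM.Reach.start, ?_⟩
    funext i; simp [tup, SM.zig_zero, PDA.start]
  | succ n ih =>
    obtain ⟨c', h', y, hy, rfl⟩ := h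
    obtain ⟨t, hle, hR, ht⟩ := ih c' h'
    have hsy : syms w k t = fun h => symAt w (c'.pos h) := by
      funext l; unfold syms; rw [ht]
    have := PDA.MReach.op (o := y.2.2) (s' := MS.mv y.1 y.2.1 0) hR (by
      change _ ∈ {x | ∃ y ∈ M.step c'.q (syms w k t) c'.st.head?, x = (MS.mv y.1 y.2.1 0, Act.op y.2.2)}
      rw [hsy]
      exact ⟨y, hy, rfl⟩)
    obtain ⟨t', h0, h1, h2⟩ := run_mv M w y.1 y.2.1 c'.pos (y.2.2.apply c'.st) 0 (by omega) this (by
      intro l
      rw [(mirror_top (k := k) (w.length + 2) t hr).1, ht]; simp)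
    refine ⟨t', ?_, h1, h2⟩
    have h4 := mirror_le (r := w.length + 2) (j := k) (k := k) (t := t) hr le_rfl
    have e1 : (n + 1) * ((4 * k + 4) * (w.length + 2) ^ k) =
        n * ((4 * k + 4) * (w.length + 2) ^ k) + 2 * (w.length + 2) ^ k +
          (4 * (k - 0) + 2) * (w.length + 2) ^ k := by
      rw [Nat.sub_zero]; ring
    rw [e1]
    omega

/-- The oblivious automaton accepts in bounded time. -/
theorem oblivious_time (M : PDA α (Fin k) Γ) (w : List α) (n : ℕ) (c : PCfg M.Q (Fin k) Γ)
    (h : M.ReachIn w n c) (hc : c.q ∈ M.acc) :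
    ∃ t, t ≤ n * ((4 * k + 4) * (w.length + 2) ^ k) ∧ ∃ x, M.toSM.toPDA.ReachIn w t x ∧
      x.q ∈ M.toSM.toPDA.acc := by
  obtain ⟨t, h1, h2, _⟩ := reach_toSM M w n c h
  exact ⟨t, h1, _, M.toSM.reach_toPDA h2, _, ⟨c.q, hc, rfl⟩, rfl⟩

end Pool.Agent.V8H47.OW
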