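import Mathlib

/-!
# Bounds for minimal costs by ranks
-/

namespace Pool.Agent.V8H47.OW

/-- If the minimal cost of a label is bounded by `f b` whenever all labels of smaller cost have
costs at most `b`, then all minimal costs are bounded by an iterate of `f`. -/
theorem rank_bound {X : Type} [Finite X] (P : X → ℕ → Prop) (f : ℕ → ℕ)
    (hstep : ∀ b x t, P x t → (∀ x' t', P x' t' → t' < t → ∃ t'', t'' ≤ b ∧ P x' t'') →
      ∃ t'', t'' ≤ f b ∧ P x t'') :
    ∀ x t, P x t → ∃ t', t' ≤ f^[Nat.card X + 1] 0 ∧ P x t' := by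
  classical
  have hmin : ∀ x t, P x t → P x (sInf {t | P x t}) := fun x t h => Nat.sInf_mem (s := {t | P x t}) ⟨t, h⟩
  have hle : ∀ x t, P x t → sInf {t | P x t} ≤ t := fun x t h => Nat.sInf_le (s := {t | P x t}) h
  set T : X → ℕ := fun x => sInf {t | P x t} with hT
  set A : X → Set X := fun x => {y | (∃ t, P y t) ∧ T y < T x} with hA
  have key : ∀ n x, (∃ t, P x t) → (A x).ncard ≤ n → T x ≤ f^[n + 1] 0 := by
    intro n
    induction n with
    | zero =>
      intro x ⟨t, hx⟩ hr
      have hempty : A x = ∅ := by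
        rw [← Set.ncard_eq_zero (Set.toFinite _)]; omega
      obtain ⟨t'', h1, h2⟩ := hstep 0 x (T x) (hmin x t hx) (by
        intro x' t' h3 h4
        exfalso
        have : x' ∈ A x := ⟨⟨t', h3⟩, lt_of_le_of_lt (hle x' t' h3) h4⟩
        rw [hempty] at this
        exact this)
      exact (hle x t'' h2).trans h1
    | succ n ih =>
      intro x ⟨t, hx⟩ hr
      obtain ⟨t'', h1, h2⟩ := hstep (f^[n + 1] 0) x (T x) (hmin x t hx) (by
        intro x' t' h3 h4
        have h5 : T x' < T x := lt_of_le_of_lt (hle x' t' h3) h4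
        have h6 : A x' ⊂ A x := by
          refine ⟨fun y hy => ⟨hy.1, hy.2.trans h5⟩, fun h => ?_⟩
          have : x' ∈ A x' := h ⟨⟨t', h3⟩, h5⟩
          exact lt_irrefl _ this.2
        have h7 := Set.ncard_lt_ncard h6 (Set.toFinite _)
        exact ⟨T x', ih x' ⟨t', h3⟩ (by omega), hmin x' t' h3⟩)
      rw [Function.iterate_succ_apply']
      exact (hle x t'' h2).trans h1
  intro x t hx
  refine ⟨T x, key _ x ⟨t, hx⟩ ?_, hmin x t hx⟩
  have := Set.ncard_le_ncard (Set.subset_univ (A x)) (Set.toFinite _)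
  rw [Set.ncard_univ] at this
  exact this

theorem iterate_max_le (K D : ℕ) (m : ℕ) : (fun b => max K (b + D))^[m] 0 ≤ K + m * D := by
  induction m with
  | zero => simp
  | succ m ih =>
    rw [Function.iterate_succ_apply']
    have : (m + 1) * D = m * D + D := by ring
    rw [this]
    exact max_le (by omega) (by omega)

end Pool.Agent.V8H47.OW
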