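import Pool.Agent.V8H47.MH.OneWayDefs
import Pool.Agent.V8H47.OW.Rank

/-!
# Balanced runs of one-way pushdown automata
-/

namespace Pool.Agent.V8H47.OW

open Pool.Agent.V8H47.MH

variable {α Γ : Type} (M : PDA α (Fin 1) Γ) (w : List α)

/-- the possible actions -/
def av (v : M.Q × ℕ) (g : Option Γ) : Set (M.Q × (Fin 1 → Dir) × Op Γ) :=
  M.step v.1 (fun _ => symAt w v.2) g

/-- the next state and position -/
def nx (v : M.Q × ℕ) (x : M.Q × (Fin 1 → Dir) × Op Γ) : M.Q × ℕ :=
  (x.1, (x.2.1 0).move w.length v.2)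

/-- actions that leave the store unchanged -/
def keeps (g : Option Γ) (o : Op Γ) : Prop := o = Op.keep ∨ (o = Op.pop ∧ g = none)

/-- Balanced runs: the store is the same at the beginning and at the end, the top symbol is never
removed. -/
inductive Bal : Option Γ → M.Q × ℕ → M.Q × ℕ → ℕ → Prop
  | nil (g : Option Γ) (v : M.Q × ℕ) : Bal g v v 0
  | keep {g : Option Γ} {v v1 : M.Q × ℕ} {t : ℕ} {x : M.Q × (Fin 1 → Dir) × Op Γ} :
      Bal g v v1 t → x ∈ av M w v1 g → keeps g x.2.2 → Bal g v (nx M w v1 x) (t + 1)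
  | call {g : Option Γ} {v v1 v3 : M.Q × ℕ} {t t' : ℕ} {x y : M.Q × (Fin 1 → Dir) × Op Γ} {c : Γ} :
      Bal g v v1 t → x ∈ av M w v1 g → x.2.2 = Op.push c → Bal (some c) (nx M w v1 x) v3 t' →
      y ∈ av M w v3 (some c) → y.2.2 = Op.pop → Bal g v (nx M w v3 y) (t + t' + 2)

/-- Runs from the initial configuration, with the final content of the store. -/
inductive Lad : List Γ → M.Q × ℕ → ℕ → Prop
  | base {v : M.Q × ℕ} {t : ℕ} : Bal M w none (M.init, 0) v t → Lad [] v t
  | up {σ : List Γ} {v v' : M.Q × ℕ} {t t' : ℕ} {x : M.Q × (Fin 1 → Dir) × Op Γ} {c : Γ} :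
      Lad σ v t → x ∈ av M w v σ.head? → x.2.2 = Op.push c → Bal M w (some c) (nx M w v x) v' t' →
      Lad (c :: σ) v' (t + 1 + t')

variable {M w}

theorem Lad.keep {σ : List Γ} {v : M.Q × ℕ} {t : ℕ} {x : M.Q × (Fin 1 → Dir) × Op Γ}
    (h : Lad M w σ v t) (hx : x ∈ av M w v σ.head?) (hk : keeps σ.head? x.2.2) :
    Lad M w σ (nx M w v x) (t + 1) := by
  cases h with
  | base h => exact Lad.base (h.keep hx hk)
  | up h1 h2 h3 h4 =>
    exact Lad.up h1 h2 h3 (h4.keep hx hk)

theorem Lad.call {σ : List Γ} {v v3 : M.Q × ℕ} {t t' : ℕ} {x y : M.Q × (Fin 1 → Dir) × Op Γ} {c : Γ}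
    (h : Lad M w σ v t) (hx : x ∈ av M w v σ.head?) (hc : x.2.2 = Op.push c)
    (hb : Bal M w (some c) (nx M w v x) v3 t') (hy : y ∈ av M w v3 (some c)) (hp : y.2.2 = Op.pop) :
    Lad M w σ (nx M w v3 y) (t + t' + 2) := by
  cases h with
  | base h => exact Lad.base (h.call hx hc hb hy hp)
  | @up σ' v0 v' t1 t2 x' c' h1 h2 h3 h4 =>
    have := Lad.up h1 h2 h3 (h4.call hx hc hb hy hp)
    have e : t1 + 1 + t2 + t' + 2 = t1 + 1 + (t2 + t' + 2) := by omega
    rw [e]
    exact this

theorem pos_eq {β : Type} (f g : Fin 1 → β) (h : f 0 = g 0) : f = g := by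
  funext i
  rw [Subsingleton.elim i 0]
  exact h

theorem lad_of_reach (t : ℕ) (c : PCfg M.Q (Fin 1) Γ) (h : M.ReachIn w t c) :
    Lad M w c.st (c.q, c.pos 0) t := by
  induction t generalizing c with
  | zero =>
    have h : c = M.start := h
    subst h
    exact Lad.base (Bal.nil _ _)
  | succ t ih =>
    obtain ⟨d, hd, x, hx, rfl⟩ := h
    have h1 := ih d hd
    have hx' : x ∈ av M w (d.q, d.pos 0) d.st.head? := by
      unfold av
      have e : (fun h : Fin 1 => symAt w (d.pos h)) = fun _ => symAt w (d.pos 0) :=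
        pos_eq _ _ rfl
      rw [e] at hx
      exact hx
    change Lad M w (x.2.2.apply d.st) (nx M w (d.q, d.pos 0) x) (t + 1)
    cases ho : x.2.2 with
    | keep => exact h1.keep hx' (Or.inl ho)
    | push c => exact Lad.up h1 hx' ho (Bal.nil _ _)
    | pop =>
      cases hst : d.st with
      | nil =>
        rw [hst] at h1 hx'
        exact h1.keep hx' (Or.inr ⟨ho, rfl⟩)
      | cons c σ =>
        rw [hst] at h1 hx'
        change Lad M w σ _ _
        cases h1 with
        | @up _ v0 v' t1 t2 x' _ h1 h2 h3 h4 =>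
          have := h1.call h2 h3 h4 hx' ho
          have e : t1 + 1 + t2 + 1 = t1 + t2 + 2 := by omega
          rw [e]
          exact this

theorem cfg_nx (v : M.Q × ℕ) (x : M.Q × (Fin 1 → Dir) × Op Γ) (σ σ' : List Γ) (o : Op Γ)
    (ho : x.2.2 = o) (hσ : o.apply σ = σ') :
    (⟨(nx M w v x).1, fun _ => (nx M w v x).2, σ'⟩ : PCfg M.Q (Fin 1) Γ) =
      ⟨x.1, fun h => (x.2.1 h).move w.length v.2, x.2.2.apply σ⟩ := by
  rw [ho, hσ]
  simp only [PCfg.mk.injEq, and_true]
  exact ⟨rfl, pos_eq _ _ rfl⟩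

theorem reach_of_bal {g : Option Γ} {v v' : M.Q × ℕ} {t : ℕ} (h : Bal M w g v v' t) :
    ∀ (σ : List Γ) (s : ℕ), σ.head? = g → M.ReachIn w s ⟨v.1, fun _ => v.2, σ⟩ →
      M.ReachIn w (s + t) ⟨v'.1, fun _ => v'.2, σ⟩ := by
  induction h with
  | nil g v => intro σ s _ h; exact h
  | @keep g v v1 t x _ hx hk ih =>
    intro σ s hg h
    have h1 := ih σ s hg h
    refine ⟨_, h1, x, ?_, ?_⟩
    · rw [hg]; exact hx
    · have hst : x.2.2.apply σ = σ := by
        rcases hk with hk | ⟨hk, hn⟩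
        · rw [hk]; rfl
        · rw [hk]
          rw [hn] at hg
          cases σ with
          | nil => rfl
          | cons a σ => simp at hg
      exact cfg_nx v1 x σ σ _ rfl hst
  | @call g v v1 v3 t t' x y c _ hx hc _ hy hp ih1 ih2 =>
    intro σ s hg h
    have h1 := ih1 σ s hg h
    have h2 : M.ReachIn w (s + t + 1) ⟨(nx M w v1 x).1, fun _ => (nx M w v1 x).2, c :: σ⟩ := by
      refine ⟨_, h1, x, ?_, ?_⟩
      · rw [hg]; exact hx
      · exact cfg_nx v1 x σ _ _ hc rfl
    have h3 := ih2 (c :: σ) _ rfl h2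
    have e : s + (t + t' + 2) = s + t + 1 + t' + 1 := by omega
    rw [e]
    refine ⟨_, h3, y, hy, ?_⟩
    exact cfg_nx v3 y (c :: σ) σ _ hp rfl

theorem reach_of_lad {σ : List Γ} {v : M.Q × ℕ} {t : ℕ} (h : Lad M w σ v t) :
    M.ReachIn w t ⟨v.1, fun _ => v.2, σ⟩ := by
  induction h with
  | base h =>
    have := reach_of_bal h [] 0 rfl rfl
    rw [Nat.zero_add] at this
    exact this
  | @up σ v v' t t' x c _ hx hc hb ih =>
    have h2 : M.ReachIn w (t + 1) ⟨(nx M w v x).1, fun _ => (nx M w v x).2, c :: σ⟩ := by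
      refine ⟨_, ih, x, hx, ?_⟩
      exact cfg_nx v x σ _ _ hc rfl
    exact reach_of_bal hb (c :: σ) _ rfl h2

section pos

variable (hM : M.OneWay)

include hM in
theorem nx_le {v : M.Q × ℕ} {g : Option Γ} {x : M.Q × (Fin 1 → Dir) × Op Γ} (hx : x ∈ av M w v g)
    (hv : v.2 ≤ w.length + 1) : v.2 ≤ (nx M w v x).2 ∧ (nx M w v x).2 ≤ w.length + 1 := by
  have h := hM _ _ _ x hx 0
  unfold nx
  cases hd : x.2.1 0 with
  | L => exact absurd hd h
  | S => exact ⟨le_rfl, hv⟩
  | R => simp only [Dir.move]; omega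

include hM in
theorem Bal.pos_le {g : Option Γ} {v v' : M.Q × ℕ} {t : ℕ} (h : Bal M w g v v' t) :
    v.2 ≤ w.length + 1 → v.2 ≤ v'.2 ∧ v'.2 ≤ w.length + 1 := by
  induction h with
  | nil g v => intro h; exact ⟨le_rfl, h⟩
  | keep _ hx _ ih =>
    intro h
    have h1 := ih h
    have h2 := nx_le hM hx h1.2
    omega
  | call _ hx _ _ hy _ ih1 ih2 =>
    intro h
    have h1 := ih1 h
    have h2 := nx_le hM hx h1.2
    have h3 := ih2 h2.2
    have h4 := nx_le hM hy h3.2
    omega

include hM in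
theorem Lad.pos_le {σ : List Γ} {v : M.Q × ℕ} {t : ℕ} (h : Lad M w σ v t) : v.2 ≤ w.length + 1 := by
  induction h with
  | base h => exact (h.pos_le hM (Nat.zero_le _)).2
  | up _ hx _ hb ih => exact (hb.pos_le hM (nx_le hM hx ih).2).2

end pos

/-! ### Bounds for the minimal length -/

section bounds

variable [Finite Γ] (hM : M.OneWay)

variable (M) in
/-- the number of labels -/
noncomputable def NL : ℕ := Nat.card (Option Γ × M.Q × M.Q)

variable (M) in
/-- the bound for runs on which the head does not move -/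
noncomputable def C0 : ℕ := (fun b => 2 * b + 2)^[NL M + 1] 0

include hM in
theorem zero_span {i : ℕ} (hi : i ≤ w.length + 1) (g : Option Γ) (q q' : M.Q) (t : ℕ)
    (h : Bal M w g (q, i) (q', i) t) : ∃ t', t' ≤ C0 M ∧ Bal M w g (q, i) (q', i) t' := by
  have := M.finQ
  refine rank_bound (X := Option Γ × M.Q × M.Q)
    (fun x t => Bal M w x.1 (x.2.1, i) (x.2.2, i) t) (fun b => 2 * b + 2) ?_ (g, q, q') t h
  rintro b ⟨g, q, q'⟩ t h ih
  simp only at h ih ⊢
  generalize hv : (q, i) = v at h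
  generalize hv' : (q', i) = v' at h
  cases h with
  | nil g v =>
    subst hv
    refine ⟨0, Nat.zero_le _, ?_⟩
    have : q' = q := (Prod.mk.inj hv').1
    subst this
    exact Bal.nil _ _
  | @keep _ _ v1 t x h1 hx hk =>
    subst hv
    have h2 := h1.pos_le hM hi
    have h3 := nx_le hM hx h2.2
    rw [← hv'] at h3
    have e : v1 = (v1.1, i) := Prod.ext rfl (by simp only at h2 h3 ⊢; omega)
    rw [e] at h1
    obtain ⟨t'', h4, h5⟩ := ih (g, q, v1.1) t h1 (by omega)
    simp only at h5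
    rw [← e] at h5
    exact ⟨t'' + 1, by omega, h5.keep hx hk⟩
  | @call _ _ v1 v3 t t' x y c h1 hx hc hb hy hp =>
    subst hv
    have h2 := h1.pos_le hM hi
    have h3 := nx_le hM hx h2.2
    have h4 := hb.pos_le hM h3.2
    have h5 := nx_le hM hy h4.2
    rw [← hv'] at h5
    simp only at h2 h3 h4 h5
    have e1 : v1 = (v1.1, i) := Prod.ext rfl (by simp only; omega)
    have e2 : nx M w v1 x = ((nx M w v1 x).1, i) := Prod.ext rfl (by simp only; omega)
    have e3 : v3 = (v3.1, i) := Prod.ext rfl (by simp only; omega)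
    have h1' := h1
    have hb' := hb
    rw [e1] at h1'
    rw [e2, e3] at hb'
    obtain ⟨s1, h6, h7⟩ := ih (g, q, v1.1) t h1' (by omega)
    obtain ⟨s2, h8, h9⟩ := ih (some c, (nx M w v1 x).1, v3.1) t' hb' (by omega)
    simp only at h7 h9
    rw [← e1] at h7
    rw [← e2, ← e3] at h9
    exact ⟨s1 + s2 + 2, by omega, h7.call hx hc h9 hy hp⟩

variable (M) in
/-- the bound for balanced runs -/
noncomputable def tau (s : ℕ) : ℕ := (NL M + 2) * (C0 M + 2) * s ^ 2 + C0 M

theorem tau_mono {s s' : ℕ} (h : s ≤ s') : tau M s ≤ tau M s' := by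
  unfold tau
  have := Nat.pow_le_pow_left h 2
  have := Nat.mul_le_mul_left ((NL M + 2) * (C0 M + 2)) this
  omega

theorem tau_add {a c s : ℕ} (h : a + c ≤ s) (ha : a < s) (hc : c < s) :
    tau M a + tau M c + 2 + (NL M + 1) * (C0 M + 2) ≤ tau M s := by
  unfold tau
  have h1 : a ^ 2 + c ^ 2 + 1 ≤ s ^ 2 := by
    rcases Nat.eq_zero_or_pos a with rfl | ha'
    · nlinarith
    · rcases Nat.eq_zero_or_pos c with rfl | hc'
      · nlinarith
      · nlinarith [Nat.mul_le_mul ha' hc', Nat.pow_le_pow_left h 2]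
  have h2 := Nat.mul_le_mul_left ((NL M + 2) * (C0 M + 2)) h1
  have e : (NL M + 2) * (C0 M + 2) * (a ^ 2 + c ^ 2 + 1) = (NL M + 2) * (C0 M + 2) * a ^ 2 +
      (NL M + 2) * (C0 M + 2) * c ^ 2 + (C0 M + 2) + (NL M + 1) * (C0 M + 2) := by ring
  rw [e] at h2
  omega

theorem C0_le_tau (s : ℕ) : C0 M ≤ tau M s := Nat.le_add_left _ _

include hM in
/-- The length of a shortest balanced run is at most quadratic. -/
theorem bal_bound (s : ℕ) : ∀ (i : ℕ), i + s ≤ w.length + 1 → ∀ (g : Option Γ) (q q' : M.Q) (t : ℕ),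
    Bal M w g (q, i) (q', i + s) t → ∃ t', t' ≤ tau M s ∧ Bal M w g (q, i) (q', i + s) t' := by
  have := M.finQ
  induction s using Nat.strong_induction_on with
  | _ s IH =>
    intro i hi g q q' t h
    rcases Nat.eq_zero_or_pos s with rfl | hs
    · obtain ⟨t', h1, h2⟩ := zero_span hM (by omega) g q q' t h
      exact ⟨t', h1.trans (C0_le_tau _), h2⟩
    · -- the general bound, for all end points
      have IH' : ∀ (v v' : M.Q × ℕ) (g : Option Γ) (t : ℕ), v'.2 ≤ w.length + 1 → v.2 ≤ v'.2 →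
          v'.2 - v.2 < s → Bal M w g v v' t →
          ∃ t', t' ≤ tau M (v'.2 - v.2) ∧ Bal M w g v v' t' := by
        intro v v' g t h1 h2 h3 h4
        have e : v' = (v'.1, v.2 + (v'.2 - v.2)) := Prod.ext rfl (by simp only; omega)
        rw [e] at h4
        obtain ⟨t', h5, h6⟩ := IH _ h3 v.2 (by omega) g v.1 v'.1 t h4
        exact ⟨t', h5, by rw [e]; exact h6⟩
      have hz : ∀ (v v' : M.Q × ℕ) (g : Option Γ) (t : ℕ), v.2 ≤ w.length + 1 → v'.2 = v.2 →
          Bal M w g v v' t → ∃ t', t' ≤ C0 M ∧ Bal M w g v v' t' := by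
        rintro ⟨q1, j⟩ ⟨q2, j'⟩ g t h1 h2 h3
        simp only at h1 h2
        subst h2
        exact zero_span hM h1 g q1 q2 t h3
      obtain ⟨K0, hK0⟩ : ∃ K0, K0 + (NL M + 1) * (C0 M + 2) = tau M s ∧
          (∀ a c, a + c ≤ s → a < s → c < s → tau M a + tau M c + 2 ≤ K0) := by
        have h0 := tau_add (M := M) (a := 0) (c := 0) (s := s) (by omega) hs hs
        refine ⟨tau M s - (NL M + 1) * (C0 M + 2), by omega, ?_⟩
        intro a c h1 h2 h3
        have := tau_add (M := M) h1 h2 h3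
        omega
      have key := rank_bound (X := Option Γ × M.Q × M.Q)
        (fun x t => Bal M w x.1 (x.2.1, i) (x.2.2, i + s) t) (fun b => max K0 (b + (C0 M + 2))) ?_
        (g, q, q') t h
      · obtain ⟨t', h1, h2⟩ := key
        exact ⟨t', (h1.trans (iterate_max_le _ _ _)).trans hK0.1.le, h2⟩
      · rintro b ⟨g, q, q'⟩ t h ih
        simp only at h ih ⊢
        generalize hv : (q, i) = v at h
        generalize hv' : (q', i + s) = v' at h
        cases h with
        | nil g v =>
          rw [← hv] at hv'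
          have := (Prod.mk.inj hv').2
          omega
        | @keep _ _ v1 t x h1 hx hk =>
          subst hv
          have h2 := h1.pos_le hM (by simp only; omega)
          have h3 := nx_le hM hx h2.2
          rw [← hv'] at h3
          simp only at h2 h3
          by_cases hj : v1.2 = i + s
          · have e : v1 = (v1.1, i + s) := Prod.ext rfl hj
            have h1' := h1
            rw [e] at h1'
            obtain ⟨t'', h4, h5⟩ := ih (g, q, v1.1) t h1' (by omega)
            simp only at h5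
            rw [← e] at h5
            exact ⟨t'' + 1, le_max_of_le_right (by omega), h5.keep hx hk⟩
          · obtain ⟨t'', h4, h5⟩ := IH' (q, i) v1 g t h2.2 h2.1 (by simp only; omega) h1
            have h6 := hK0.2 (v1.2 - i) 0 (by omega) (by omega) hs
            simp only at h4
            exact ⟨t'' + 1, le_max_of_le_left (by omega), h5.keep hx hk⟩
        | @call _ _ v1 v3 t t' x y c h1 hx hc hb hy hp =>
          subst hv
          have h2 := h1.pos_le hM (by simp only; omega)
          have h3 := nx_le hM hx h2.2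
          have h4 := hb.pos_le hM h3.2
          have h5 := nx_le hM hy h4.2
          rw [← hv'] at h5
          simp only at h2 h5
          by_cases hj : v1.2 = i + s
          · have e : v1 = (v1.1, i + s) := Prod.ext rfl hj
            have h1' := h1
            rw [e] at h1'
            obtain ⟨t1, h6, h7⟩ := ih (g, q, v1.1) t h1' (by omega)
            simp only at h7
            rw [← e] at h7
            obtain ⟨t2, h8, h9⟩ := hz _ _ _ _ h3.2 (by omega) hb
            exact ⟨t1 + t2 + 2, le_max_of_le_right (by omega), h7.call hx hc h9 hy hp⟩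
          · by_cases hj2 : (nx M w v1 x).2 = i ∧ v3.2 = i + s
            · have e1 : nx M w v1 x = ((nx M w v1 x).1, i) := Prod.ext rfl hj2.1
              have e2 : v3 = (v3.1, i + s) := Prod.ext rfl hj2.2
              have hb' := hb
              rw [e1, e2] at hb'
              obtain ⟨t2, h6, h7⟩ := ih (some c, (nx M w v1 x).1, v3.1) t' hb' (by omega)
              simp only at h7
              rw [← e1, ← e2] at h7
              obtain ⟨t1, h8, h9⟩ := hz _ _ _ _ (by simp only; omega) (by simp only; omega) h1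
              exact ⟨t1 + t2 + 2, le_max_of_le_right (by omega), h9.call hx hc h7 hy hp⟩
            · obtain ⟨t1, h6, h7⟩ := IH' (q, i) v1 g t h2.2 h2.1 (by simp only; omega) h1
              obtain ⟨t2, h8, h9⟩ := IH' (nx M w v1 x) v3 (some c) t' h4.2 h4.1 (by omega) hb
              have h10 := hK0.2 (v1.2 - i) (v3.2 - (nx M w v1 x).2) (by omega) (by omega) (by omega)
              simp only at h6
              exact ⟨t1 + t2 + 2, le_max_of_le_left (by omega), h7.call hx hc h9 hy hp⟩

/-- Runs from the initial configuration, with the top symbol of the store at the end. -/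
def Up (M : PDA α (Fin 1) Γ) (w : List α) (g : Option Γ) (v : M.Q × ℕ) (t : ℕ) : Prop :=
  ∃ σ : List Γ, σ.head? = g ∧ Lad M w σ v t

variable (M) in
/-- the bound for one position -/
noncomputable def B0 (n : ℕ) : ℕ :=
  tau M (n + 1) + 1 + (Nat.card (Option Γ × M.Q) + 1) * (C0 M + 1)

include hM in
theorem up_bound (i : ℕ) : i ≤ w.length + 1 → ∀ (g : Option Γ) (q : M.Q) (t : ℕ),
    Up M w g (q, i) t → ∃ t', t' ≤ (i + 1) * B0 M w.length ∧ Up M w g (q, i) t' := by
  have := M.finQ
  induction i using Nat.strong_induction_on with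
  | _ i IH =>
    intro hi g q t h
    have hbal : ∀ (v v' : M.Q × ℕ) (g : Option Γ) (t : ℕ), v.2 ≤ w.length + 1 →
        Bal M w g v v' t → ∃ t', t' ≤ tau M (w.length + 1) ∧ Bal M w g v v' t' := by
      intro v v' g t h1 h4
      have h2 := h4.pos_le hM h1
      have e : v' = (v'.1, v.2 + (v'.2 - v.2)) := Prod.ext rfl (by simp only; omega)
      rw [e] at h4
      obtain ⟨t', h5, h6⟩ := bal_bound hM (v'.2 - v.2) v.2 (by omega) g v.1 v'.1 t h4
      exact ⟨t', h5.trans (tau_mono (by omega)), by rw [e]; exact h6⟩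
    have hz : ∀ (v v' : M.Q × ℕ) (g : Option Γ) (t : ℕ), v.2 ≤ w.length + 1 → v'.2 = v.2 →
        Bal M w g v v' t → ∃ t', t' ≤ C0 M ∧ Bal M w g v v' t' := by
      rintro ⟨q1, j⟩ ⟨q2, j'⟩ g t h1 h2 h3
      simp only at h1 h2
      subst h2
      exact zero_span hM h1 g q1 q2 t h3
    have key := rank_bound (X := Option Γ × M.Q)
      (fun x t => Up M w x.1 (x.2, i) t)
      (fun b => max (i * B0 M w.length + tau M (w.length + 1) + 1) (b + (C0 M + 1))) ?_
      (g, q) t h
    · obtain ⟨t', h1, h2⟩ := key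
      refine ⟨t', (h1.trans (iterate_max_le _ _ _)).trans ?_, h2⟩
      have e1 : (i + 1) * B0 M w.length = i * B0 M w.length + B0 M w.length := by ring
      rw [e1]
      have e2 : B0 M w.length =
        tau M (w.length + 1) + 1 + (Nat.card (Option Γ × M.Q) + 1) * (C0 M + 1) := rfl
      generalize i * B0 M w.length = I at *
      omega
    · rintro b ⟨g, q⟩ t ⟨σ, hσ, h⟩ ih
      simp only at hσ h ih ⊢
      generalize hv : (q, i) = v at h
      cases h with
      | base h =>
        subst hv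
        obtain ⟨t', h1, h2⟩ := hbal _ _ _ _ (Nat.zero_le _) h
        exact ⟨t', le_max_of_le_left (by omega), [], hσ, Lad.base h2⟩
      | @up σ' v1 _ t t' x c h1 hx hc hb =>
        subst hv
        have h2 := h1.pos_le hM
        have h3 := nx_le hM hx h2
        have h4 := hb.pos_le hM h3.2
        simp only at h4
        by_cases hj : v1.2 = i
        · have e : v1 = (v1.1, i) := Prod.ext rfl hj
          have h1' := h1
          rw [e] at h1'
          obtain ⟨t1, h5, σ'', h6, h7⟩ := ih (σ'.head?, v1.1) t ⟨σ', rfl, h1'⟩ (by omega)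
          simp only at h6 h7
          rw [← e] at h7
          obtain ⟨t2, h8, h9⟩ := hz _ _ _ _ h3.2 (by simp only; omega) hb
          refine ⟨t1 + 1 + t2, le_max_of_le_right (by omega), c :: σ'', hσ, ?_⟩
          exact Lad.up h7 (by rw [h6]; exact hx) hc h9
        · obtain ⟨t1, h5, σ'', h6, h7⟩ := IH v1.2 (by omega) h2 σ'.head? v1.1 t ⟨σ', rfl, h1⟩
          obtain ⟨t2, h8, h9⟩ := hbal _ _ _ _ h3.2 hb
          refine ⟨t1 + 1 + t2, le_max_of_le_left ?_, c :: σ'', hσ, ?_⟩
          · have : (v1.2 + 1) * B0 M w.length ≤ i * B0 M w.length :=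
              Nat.mul_le_mul_right _ (by omega)
            omega
          · exact Lad.up h7 (by rw [h6]; exact hx) hc h9

include hM in
/-- **One-way pushdown automata accept in polynomial time.** -/
theorem oneway_poly : ∃ C : ℕ, ∀ w ∈ M.lang, ∃ t, t ≤ C * (w.length + 2) ^ 3 ∧
    ∃ c, M.ReachIn w t c ∧ c.q ∈ M.acc := by
  refine ⟨(NL M + 2) * (C0 M + 2) + C0 M + 1 + (Nat.card (Option Γ × M.Q) + 1) * (C0 M + 1), ?_⟩
  rintro w ⟨c, ⟨t, ht⟩, hacc⟩
  have h1 := lad_of_reach t c ht
  have h2 := h1.pos_le hM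
  simp only at h2
  obtain ⟨t', h3, σ, _, h4⟩ := up_bound hM (c.pos 0) h2 c.st.head? c.q t ⟨c.st, rfl, h1⟩
  refine ⟨t', ?_, _, reach_of_lad h4, hacc⟩
  refine h3.trans ?_
  have h5 : (c.pos 0 + 1) * B0 M w.length ≤ (w.length + 2) * B0 M w.length :=
    Nat.mul_le_mul_right _ (by omega)
  refine h5.trans ?_
  have h6 : B0 M w.length ≤ ((NL M + 2) * (C0 M + 2) + C0 M + 1 +
      (Nat.card (Option Γ × M.Q) + 1) * (C0 M + 1)) * (w.length + 2) ^ 2 := by
    unfold B0 tau
    have e1 : (w.length + 1) ^ 2 ≤ (w.length + 2) ^ 2 := Nat.pow_le_pow_left (by omega) 2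
    have e2 : 1 ≤ (w.length + 2) ^ 2 := Nat.one_le_pow _ _ (by omega)
    generalize (w.length + 2) ^ 2 = R at *
    generalize (Nat.card (Option Γ × M.Q) + 1) * (C0 M + 1) = D
    have e3 := Nat.mul_le_mul_left ((NL M + 2) * (C0 M + 2)) e1
    have e4 := Nat.mul_le_mul_left (C0 M + 1 + D) e2
    have e5 : ((NL M + 2) * (C0 M + 2) + C0 M + 1 + D) * R =
      (NL M + 2) * (C0 M + 2) * R + (C0 M + 1 + D) * R := by ring
    rw [e5]
    omega
  have h7 := Nat.mul_le_mul_left (w.length + 2) h6
  refine h7.trans (le_of_eq ?_)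
  ring

end bounds

end Pool.Agent.V8H47.OW
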