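import Pool.Agent.V8H47.MH.Defs

/-!
# Time bounded multihead pushdown automata
-/

namespace Pool.Agent.V8H47.MH

/-- The languages over `α` accepted by nondeterministic two-way `k`-head pushdown automata in time
`O(n ^ c)`: there is a constant `C` such that every accepted word `w` of length `n` is accepted by
some computation with at most `C * (n + 2) ^ c` steps. -/
def twoNPDAT (k c : ℕ) (α : Type) : Set (Language α) :=
  {L | ∃ (Γ : Type) (_ : Finite Γ) (M : PDA α (Fin k) Γ) (C : ℕ), M.lang = L ∧
    ∀ w ∈ M.lang, ∃ t, t ≤ C * (w.length + 2) ^ c ∧ ∃ x, M.ReachIn w t x ∧ x.q ∈ M.acc}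

end Pool.Agent.V8H47.MH
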