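import Pool.Agent.V8H47.OW.Sweep
import Pool.Agent.V8H47.OW.Time
import Pool.Agent.V8H47.OW.Bal
import Pool.Agent.V8H47.OW.TimeDefs

/-!
# Polynomial time multihead pushdown automata and one context-free language
-/

namespace Pool.Agent.V8H47.OW

open Pool.Agent.V8H47.MH

/-- From the hardest language to time bounded automata. -/
theorem overhead {m : ℕ} (h : univ1.lang ∈ twoNFA m UL) (k c : ℕ) (α : Type) [Finite α] :
    twoNPDAT k c α ⊆ twoNFA (m * (k + c + 1)) α := by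
  rintro L ⟨Γ, _, M, C, rfl, hM⟩
  obtain ⟨F, hF⟩ := h
  set N := C * (4 * k + 4) with hN
  set K := k + c + 1 with hK
  set S : Set (List α) := {w | w ∈ M.lang ∧ w.length + 2 ≤ N} with hS
  set M' := M.toSM.toPDA with hM'
  have hlang : M'.lang = M.lang := by rw [hM', SM.lang_toPDA, PDA.lang_toSM]
  have hob : ∀ (w : List α) (t : ℕ) (c : PCfg M'.Q (Fin k) (Option Γ)), M'.ReachIn w t c →
      ∀ i : Fin k, c.pos i = zig (w.length + 2) (t / (w.length + 2) ^ (i : ℕ)) :=
    fun w t c h i => M.toSM.sched_toPDA w t c h i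
  have hkK : k ≤ K := by omega
  have hK0 : 0 < K := by omega
  obtain ⟨F', hF'⟩ := hardest1 (M := sweep M' hkK hK0 N S) (rt_sweep M' hkK hK0 N S) F hF
  obtain ⟨F'', _, h3⟩ := from_tuples (k := K) F'
  refine ⟨F'', ?_⟩
  ext w
  rw [h3, hF', lang_sweep M' hkK hK0 N S hob ?_ w ?_, hlang]
  · intro w hw
    rw [hlang]
    exact hw.1
  · intro hw
    rw [hlang] at hw
    obtain ⟨t, ht, x, hx, hacc⟩ := hM w hw
    rcases Nat.lt_or_ge (w.length + 2) N with hlt | hge
    · exact Or.inr ⟨⟨hw, hlt.le⟩, hlt.le⟩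
    · left
      obtain ⟨t', h4, y, h5, h6⟩ := oblivious_time M w t x hx hacc
      refine ⟨t', ?_, y, h5, h6⟩
      calc t' ≤ t * ((4 * k + 4) * (w.length + 2) ^ k) := h4
        _ ≤ (C * (w.length + 2) ^ c) * ((4 * k + 4) * (w.length + 2) ^ k) :=
            Nat.mul_le_mul_right _ ht
        _ = N * (w.length + 2) ^ (k + c) := by rw [hN, pow_add]; ring
        _ ≤ (w.length + 2) * (w.length + 2) ^ (k + c) := Nat.mul_le_mul_right _ hge
        _ = (w.length + 2) ^ K := by rw [hK, pow_succ]; ring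

theorem cfl_subset (α : Type) : CFL α ⊆ twoNPDAT 1 3 α := by
  rintro L ⟨Γ, _, M, hM, rfl⟩
  obtain ⟨C, hC⟩ := oneway_poly (M := M) hM
  exact ⟨Γ, inferInstance, M, C, rfl, hC⟩

end Pool.Agent.V8H47.OW
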