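import Pool.Agent.V8H47.OW.Univ1

/-!
# Oblivious automata in real time on the tape of tuples
-/

namespace Pool.Agent.V8H47.OW

open Pool.Agent.V8H47.MH

variable {α Γ : Type} {k K : ℕ}

/-- the tape with both endmarkers -/
def tapeOf (w : List α) : List (Sym α) := (List.range (w.length + 2)).map (symAt w)

/-- One head sweeps once over the tape of tuples; short words in `S` are recognised by the
control. -/
def sweep [Finite α] (M : PDA α (Fin k) Γ) (hk : k ≤ K) (hK : 0 < K) (N : ℕ) (S : Set (List α)) :
    PDA (Fin K → Sym α) (Fin 1) Γ where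
  Q := M.Q ⊕ {l : List (Sym α) // l.length ≤ N}
  finQ := by
    have := M.finQ
    have : Finite {l : List (Sym α) // l.length ≤ N} := (List.finite_length_le (Sym α) N).to_subtype
    infer_instance
  init := Sum.inl M.init
  acc := {q | (∃ q' ∈ M.acc, q = Sum.inl q') ∨ ∃ u, (∃ w ∈ S, u.1 = tapeOf w) ∧ q = Sum.inr u}
  step q a g := match a 0, q with
    | Sym.left, Sum.inl q => {(Sum.inl q, fun _ => Dir.R, Op.keep),
        (Sum.inr ⟨[], Nat.zero_le _⟩, fun _ => Dir.R, Op.keep)}
    | Sym.letter b, Sum.inl q => {x | ∃ t ∈ M.step q (fun i => b (Fin.castLE hk i)) g,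
        x = (Sum.inl t.1, fun _ => Dir.R, t.2.2)}
    | Sym.letter b, Sum.inr u => {x | ∃ h : (u.1 ++ [b ⟨0, hK⟩]).length ≤ N,
        x = (Sum.inr ⟨_, h⟩, fun _ => Dir.R, Op.keep)}
    | _, _ => ∅

section

variable [Finite α] (M : PDA α (Fin k) Γ) (hk : k ≤ K) (hK : 0 < K) (N : ℕ) (S : Set (List α))

theorem rt_sweep : RT (sweep M hk hK N S) := by
  intro q a g t ht
  simp only [sweep] at ht
  cases ha : a 0 with
  | left =>
    rw [ha] at ht
    cases q with
    | inl q =>
      rcases ht with rfl | rfl <;> exact ⟨by simp, rfl⟩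
    | inr u => exact absurd ht (Set.notMem_empty _)
  | right => rw [ha] at ht; exact absurd ht (Set.notMem_empty _)
  | letter b =>
    rw [ha] at ht
    cases q with
    | inl q => obtain ⟨y, _, rfl⟩ := ht; exact ⟨by simp, rfl⟩
    | inr u => obtain ⟨_, rfl⟩ := ht; exact ⟨by simp, rfl⟩

/-- what is recorded by the control -/
def recd (w : List α) (t : ℕ) : List (Sym α) :=
  (List.range t).map (fun j => symAt w (zig (w.length + 2) j))

theorem recd_succ (w : List α) (t : ℕ) :
    recd w (t + 1) = recd w t ++ [symAt w (zig (w.length + 2) t)] := by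
  simp [recd, List.range_succ]

theorem syms_zero (w : List α) (t : ℕ) :
    syms w K t ⟨0, hK⟩ = symAt w (zig (w.length + 2) t) := by
  simp [syms, tup]

/-- the configurations -/
def SI (w : List α) : ℕ → PCfg (sweep M hk hK N S).Q (Fin 1) Γ → Prop
  | 0, x => x = (sweep M hk hK N S).start
  | t + 1, x => t ≤ (w.length + 2) ^ K ∧
      ((∃ c, M.ReachIn w t c ∧ x = ⟨Sum.inl c.q, fun _ => t + 1, c.st⟩) ∨
      (∃ h : (recd w t).length ≤ N, x = ⟨Sum.inr ⟨recd w t, h⟩, fun _ => t + 1, []⟩))

variable (hM : ∀ (w : List α) (t : ℕ) (c : PCfg M.Q (Fin k) Γ), M.ReachIn w t c →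
        ∀ i : Fin k, c.pos i = zig (w.length + 2) (t / (w.length + 2) ^ (i : ℕ)))

include hM in
theorem si_step (w : List α) (t : ℕ) (x : PCfg (sweep M hk hK N S).Q (Fin 1) Γ)
    (h : (sweep M hk hK N S).ReachIn (tupTape K w) t x) : SI M hk hK N S w t x := by
  have hR : 0 < (w.length + 2) ^ K := Nat.pow_pos (by omega)
  induction t generalizing x with
  | zero => exact h
  | succ t ih =>
    obtain ⟨y, hy, z, hz, rfl⟩ := h
    have hy := ih y hy
    cases t with
    | zero =>
      have hy : y = (sweep M hk hK N S).start := hy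
      subst hy
      have hz : z ∈ ({(Sum.inl M.init, fun _ => Dir.R, Op.keep),
        (Sum.inr ⟨[], Nat.zero_le _⟩, fun _ => Dir.R, Op.keep)} :
          Set ((M.Q ⊕ {l : List (Sym α) // l.length ≤ N}) × (Fin 1 → Dir) × Op Γ)) := hz
      refine ⟨Nat.zero_le _, ?_⟩
      rcases hz with rfl | rfl
      · refine Or.inl ⟨M.start, rfl, ?_⟩
        simp [PDA.start, Dir.move, Op.apply]
      · refine Or.inr ⟨by simp [recd], ?_⟩
        simp [PDA.start, Dir.move, Op.apply, recd]
    | succ t =>
      obtain ⟨hle, hy⟩ := hy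
      rcases Nat.lt_or_ge t ((w.length + 2) ^ K) with hlt | hge
      · have hsy := symAt_tupTape K w t hlt
        refine ⟨hlt, ?_⟩
        have hpos : Dir.R.move (tupTape K w).length (t + 1) = t + 1 + 1 := by
          rw [length_tupTape]; simp only [Dir.move]; omega
        rcases hy with ⟨c, hc, rfl⟩ | ⟨hl, rfl⟩
        · left
          simp only [sweep, hsy] at hz
          obtain ⟨s, hs, rfl⟩ := hz
          have e : (fun i : Fin k => syms w K t (Fin.castLE hk i)) =
              fun i => symAt w (c.pos i) := by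
            funext i
            rw [hM w t c hc i]
            rfl
          rw [e] at hs
          exact ⟨_, ⟨c, hc, s, hs, rfl⟩, by simp [hpos]⟩
        · right
          simp only [sweep, hsy] at hz
          obtain ⟨h, rfl⟩ := hz
          simp only [syms_zero] at h ⊢
          have h' : (recd w (t + 1)).length ≤ N := by rw [recd_succ]; exact h
          refine ⟨h', ?_⟩
          simp [hpos, recd_succ, Op.apply]
      · exfalso
        have ht : t = (w.length + 2) ^ K := by omega
        subst ht
        have hsy : symAt (tupTape K w) ((w.length + 2) ^ K + 1) = Sym.right := by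
          rw [symAt_eq_right, length_tupTape]
        rcases hy with ⟨c, hc, rfl⟩ | ⟨hl, rfl⟩
        · simp only [sweep, hsy] at hz
          exact hz
        · simp only [sweep, hsy] at hz
          exact hz

include hM in
theorem reach_inl (w : List α) (t : ℕ) (ht : t ≤ (w.length + 2) ^ K) (c : PCfg M.Q (Fin k) Γ)
    (h : M.ReachIn w t c) :
    (sweep M hk hK N S).ReachIn (tupTape K w) (t + 1) ⟨Sum.inl c.q, fun _ => t + 1, c.st⟩ := by
  have hR : 0 < (w.length + 2) ^ K := Nat.pow_pos (by omega)
  induction t generalizing c with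
  | zero =>
    have h : c = M.start := h
    subst h
    refine ⟨(sweep M hk hK N S).start, rfl, (Sum.inl M.init, fun _ => Dir.R, Op.keep), ?_, ?_⟩
    · exact Or.inl rfl
    · simp [PDA.start, Dir.move, Op.apply]
  | succ t ih =>
    obtain ⟨c', hc, s, hs, rfl⟩ := h
    have h1 := ih (by omega) c' hc
    have hsy := symAt_tupTape K w t (by omega)
    have hpos : Dir.R.move (tupTape K w).length (t + 1) = t + 1 + 1 := by
      rw [length_tupTape]; simp only [Dir.move]; omega
    refine ⟨_, h1, (Sum.inl s.1, fun _ => Dir.R, s.2.2), ?_, ?_⟩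
    · simp only [sweep, hsy]
      refine ⟨s, ?_, rfl⟩
      have e : (fun i : Fin k => syms w K t (Fin.castLE hk i)) =
          fun i => symAt w (c'.pos i) := by
        funext i
        rw [hM w t c' hc i]
        rfl
      rw [e]
      exact hs
    · simp [hpos]

theorem reach_inr (w : List α) (t : ℕ) (ht : t ≤ (w.length + 2) ^ K)
    (h : (recd w t).length ≤ N) :
    (sweep M hk hK N S).ReachIn (tupTape K w) (t + 1) ⟨Sum.inr ⟨recd w t, h⟩, fun _ => t + 1, []⟩ := by
  have hR : 0 < (w.length + 2) ^ K := Nat.pow_pos (by omega)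
  induction t with
  | zero =>
    refine ⟨(sweep M hk hK N S).start, rfl, (Sum.inr ⟨[], Nat.zero_le _⟩, fun _ => Dir.R, Op.keep),
      ?_, ?_⟩
    · exact Or.inr rfl
    · simp [PDA.start, Dir.move, Op.apply, recd]
  | succ t ih =>
    have h0 : (recd w t).length ≤ N := by
      rw [recd_succ, List.length_append] at h; omega
    have h1 := ih (by omega) h0
    have hsy := symAt_tupTape K w t (by omega)
    have hpos : Dir.R.move (tupTape K w).length (t + 1) = t + 1 + 1 := by
      rw [length_tupTape]; simp only [Dir.move]; omega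
    have h2 : (recd w t ++ [syms w K t ⟨0, hK⟩]).length ≤ N := by
      rw [syms_zero, ← recd_succ]; exact h
    refine ⟨_, h1, (Sum.inr ⟨_, h2⟩, fun _ => Dir.R, Op.keep), ?_, ?_⟩
    · simp only [sweep, hsy]
      exact ⟨h2, rfl⟩
    · simp only [PCfg.mk.injEq, Op.apply, and_true]
      refine ⟨congrArg Sum.inr (Subtype.ext ?_), ?_⟩
      · change recd w (t + 1) = recd w t ++ [syms w K t ⟨0, hK⟩]
        rw [syms_zero, ← recd_succ]
      · funext _; exact hpos.symm

theorem recd_eq (w : List α) : recd w (w.length + 2) = tapeOf w := by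
  unfold recd tapeOf
  apply List.map_congr_left
  intro j hj
  rw [List.mem_range] at hj
  unfold zig
  rw [Nat.div_eq_of_lt hj, Nat.mod_eq_of_lt hj]
  simp

theorem tapeOf_inj {w w' : List α} {t : ℕ} (h : recd w t = tapeOf w') : w = w' := by
  have hlen := congrArg List.length h
  simp only [recd, tapeOf, List.length_map, List.length_range] at hlen
  subst hlen
  have hget : ∀ j, j < w'.length + 2 → symAt w (zig (w.length + 2) j) = symAt w' j := by
    intro j hj
    have := congrArg (fun l => l[j]?) h
    simp only [recd, tapeOf, List.getElem?_map, List.getElem?_range hj, Option.map_some,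
      Option.some.injEq] at this
    exact this
  have hz : ∀ j, j < w.length + 2 → zig (w.length + 2) j = j := by
    intro j hj
    unfold zig
    rw [Nat.div_eq_of_lt hj, Nat.mod_eq_of_lt hj]; simp
  have h1 : w.length ≤ w'.length := by
    have h2 := hget (w'.length + 1) (by omega)
    rw [symAt_right, symAt_eq_right] at h2
    by_contra hcon
    rw [hz _ (by omega)] at h2
    omega
  have h2 : w'.length ≤ w.length := by
    have h3 := hget (w.length + 1) (by omega)
    rw [hz _ (by omega), symAt_right] at h3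
    have := symAt_eq_right.1 h3.symm
    omega
  apply List.ext_getElem?
  intro j
  rcases Nat.lt_or_ge j w.length with hj | hj
  · have h3 := hget (j + 1) (by omega)
    rw [hz _ (by omega)] at h3
    simp only [symAt] at h3
    rw [List.getElem?_eq_getElem hj, List.getElem?_eq_getElem (show j < w'.length by omega)] at h3 ⊢
    simp only [Sym.letter.injEq] at h3
    rw [h3]
  · rw [List.getElem?_eq_none hj, List.getElem?_eq_none (by omega)]

include hM in
/-- **One sweep over the tape of tuples.** -/
theorem lang_sweep (hS : ∀ w ∈ S, w ∈ M.lang) (w : List α)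
    (hw : w ∈ M.lang → (∃ t, t ≤ (w.length + 2) ^ K ∧ ∃ c, M.ReachIn w t c ∧ c.q ∈ M.acc) ∨
      (w ∈ S ∧ w.length + 2 ≤ N)) :
    tupTape K w ∈ (sweep M hk hK N S).lang ↔ w ∈ M.lang := by
  constructor
  · rintro ⟨x, ⟨t, hx⟩, hacc⟩
    have h1 := si_step M hk hK N S hM w t x hx
    cases t with
    | zero =>
      have h1 : x = (sweep M hk hK N S).start := h1
      subst h1
      rcases hacc with ⟨q', hq, he⟩ | ⟨u, _, he⟩
      · have he : (Sum.inl M.init : M.Q ⊕ {l : List (Sym α) // l.length ≤ N}) = Sum.inl q' := he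
        rw [Sum.inl.injEq] at he
        subst he
        exact ⟨M.start, ⟨0, rfl⟩, hq⟩
      · have he : (Sum.inl M.init : M.Q ⊕ {l : List (Sym α) // l.length ≤ N}) = Sum.inr u := he
        simp at he
    | succ t =>
      obtain ⟨_, ⟨c, hc, rfl⟩ | ⟨h, rfl⟩⟩ := h1
      · rcases hacc with ⟨q', hq, he⟩ | ⟨u, _, he⟩
        · simp only [Sum.inl.injEq] at he
          subst he
          exact ⟨c, ⟨t, hc⟩, hq⟩
        · simp at he
      · rcases hacc with ⟨q', hq, he⟩ | ⟨u, ⟨w', hw', hu⟩, he⟩
        · simp at he
        · simp only [Sum.inr.injEq] at he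
          subst he
          have := tapeOf_inj hu
          subst this
          exact hS _ hw'
  · intro h
    rcases hw h with ⟨t, ht, c, hc, hacc⟩ | ⟨hwS, hN⟩
    · exact ⟨_, ⟨_, reach_inl M hk hK N S hM w t ht c hc⟩, Or.inl ⟨_, hacc, rfl⟩⟩
    · have hle : w.length + 2 ≤ (w.length + 2) ^ K := Nat.le_self_pow (by omega) _
      have hl : (recd w (w.length + 2)).length ≤ N := by simpa [recd] using hN
      refine ⟨_, ⟨_, reach_inr M hk hK N S w (w.length + 2) hle hl⟩, Or.inr ⟨_, ⟨w, hwS, ?_⟩, rfl⟩⟩
      exact recd_eq w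

end

end Pool.Agent.V8H47.OW
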