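import Pool.Agent.V8H47.MH.Overhead
import Pool.Agent.V8H47.MH.OneWayDefs

/-!
# A hardest language for one-way pushdown automata in real time
-/

namespace Pool.Agent.V8H47.OW

open Relation Pool.Agent.V8H47.MH

/-- the transitions of the one-way universal automaton -/
def uStep1 (q : UQ) (a : Sym UL) (g : Option Bool) : Set (UQ × Dir × Op Bool) :=
  match a with
  | Sym.left => {x | q = .init ∧ x = (.gr, Dir.R, Op.keep)}
  | Sym.right => ∅
  | Sym.letter l => {x | q ≠ .gs ∧ q ≠ .gl ∧ l ≠ .dL ∧ l ≠ .dS ∧ x ∈ uStep true q (Sym.letter l) g}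

/-- The one-way universal automaton. -/
def univ1 : PDA UL (Fin 1) Bool where
  Q := UQ
  finQ := inferInstance
  init := .init
  acc := {.acc}
  step q a g := {x | ∃ y ∈ uStep1 q (a 0) g, x = (y.1, fun _ => y.2.1, y.2.2)}

theorem uAct_dir {q : UQ} {l : UL} (h1 : q ≠ .gs) (h2 : q ≠ .gl) {x : UQ × Dir × Op Bool}
    (h : uAct q l = some x) : x.2.1 ≠ Dir.L := by
  cases q <;> cases l <;> simp_all [uAct] <;> subst h <;> simp

theorem oneWay_univ1 : univ1.OneWay := by
  rintro q a g t ⟨y, hy, rfl⟩ h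
  simp only
  unfold uStep1 at hy
  cases ha : a 0 with
  | left => rw [ha] at hy; obtain ⟨_, rfl⟩ := hy; simp
  | right => rw [ha] at hy; exact absurd hy (Set.notMem_empty _)
  | letter l =>
    rw [ha] at hy
    obtain ⟨h1, h2, h3, h4, h5⟩ := hy
    unfold uStep at h5
    cases q with
    | find =>
      simp only at h5
      split_ifs at h5 <;> (rw [Set.mem_singleton_iff] at h5; subst h5; simp)
    | exec =>
      obtain ⟨_, h6⟩ := h5
      rcases h6 with rfl | ⟨_, rfl⟩ <;> simp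
    | init => exact uAct_dir h1 h2 h5
    | skip => exact uAct_dir h1 h2 h5
    | go => exact uAct_dir h1 h2 h5
    | alt => exact uAct_dir h1 h2 h5
    | gs => exact absurd rfl h1
    | gl => exact absurd rfl h2
    | gr => exact uAct_dir h1 h2 h5
    | acc => exact uAct_dir h1 h2 h5

theorem uAct_new {q : UQ} {l : UL} (h1 : q ≠ .gs) (h2 : q ≠ .gl) (h3 : l ≠ .dL) (h4 : l ≠ .dS)
    {x : UQ × Dir × Op Bool} (h : uAct q l = some x) : x.1 ≠ .gs ∧ x.1 ≠ .gl := by
  cases q <;> cases l <;> simp_all [uAct] <;> subst h <;> simp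

theorem uStep_new {q : UQ} {l : UL} {g : Option Bool} (h1 : q ≠ .gs) (h2 : q ≠ .gl) (h3 : l ≠ .dL)
    (h4 : l ≠ .dS) {x : UQ × Dir × Op Bool} (h5 : x ∈ uStep true q (Sym.letter l) g) :
    x.1 ≠ .gs ∧ x.1 ≠ .gl := by
  unfold uStep at h5
  cases q with
  | find =>
    simp only at h5
    split_ifs at h5 <;> (rw [Set.mem_singleton_iff] at h5; subst h5; simp)
  | exec =>
    obtain ⟨_, h6⟩ := h5
    rcases h6 with rfl | ⟨_, rfl⟩ <;> simp
  | init => exact uAct_new h1 h2 h3 h4 h5
  | skip => exact uAct_new h1 h2 h3 h4 h5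
  | go => exact uAct_new h1 h2 h3 h4 h5
  | alt => exact uAct_new h1 h2 h3 h4 h5
  | gs => exact absurd rfl h1
  | gl => exact absurd rfl h2
  | gr => exact uAct_new h1 h2 h3 h4 h5
  | acc => exact uAct_new h1 h2 h3 h4 h5

theorem symAt_mem {α : Type} {w : List α} {p : ℕ} {a : α} (h : symAt w p = Sym.letter a) :
    a ∈ w := by
  cases p with
  | zero => simp [symAt] at h
  | succ p =>
    simp only [symAt] at h
    cases hw : w[p]? with
    | none => rw [hw] at h; simp at h
    | some b =>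
      rw [hw] at h
      simp only [Sym.letter.injEq] at h
      subst h
      exact List.mem_of_getElem? hw

section

variable (T : List UL) (hT : ∀ l ∈ T, l ≠ .dL ∧ l ≠ .dS) (hd : ∃ T', T = UL.dol :: T')

/-- a configuration of the one-way universal automaton -/
def C1 (q : UQ) (p : ℕ) (st : List Bool) : PCfg univ1.Q (Fin 1) Bool := ⟨q, fun _ => p, st⟩

/-- a configuration of the universal automaton -/
def C2 (q : UQ) (p : ℕ) (st : List Bool) : PCfg (univ true).Q (Fin 1) Bool := ⟨q, fun _ => p, st⟩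

theorem exists_C1 (c : PCfg univ1.Q (Fin 1) Bool) : ∃ q p st, c = C1 q p st := by
  obtain ⟨q, p, st⟩ := c
  refine ⟨q, p 0, st, ?_⟩
  have : p = fun _ => p 0 := by funext h; rw [Subsingleton.elim h 0]
  unfold C1
  rw [← this]

theorem exists_C2 (c : PCfg (univ true).Q (Fin 1) Bool) : ∃ q p st, c = C2 q p st := by
  obtain ⟨q, p, st⟩ := c
  refine ⟨q, p 0, st, ?_⟩
  have : p = fun _ => p 0 := by funext h; rw [Subsingleton.elim h 0]
  unfold C2
  rw [← this]

theorem step_C1 (T : List UL) (q : UQ) (p : ℕ) (st : List Bool) (x : PCfg univ1.Q (Fin 1) Bool) :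
    univ1.Step T (C1 q p st) x ↔ ∃ y ∈ uStep1 q (symAt T p) st.head?,
      x = C1 y.1 (y.2.1.move T.length p) (y.2.2.apply st) := by
  constructor
  · rintro ⟨t, ⟨y, hy, rfl⟩, rfl⟩
    exact ⟨y, hy, rfl⟩
  · rintro ⟨y, hy, rfl⟩
    exact ⟨_, ⟨y, hy, rfl⟩, rfl⟩

theorem step_C2 (T : List UL) (q : UQ) (p : ℕ) (st : List Bool)
    (x : PCfg (univ true).Q (Fin 1) Bool) :
    (univ true).Step T (C2 q p st) x ↔ ∃ y ∈ uStep true q (symAt T p) st.head?,
      x = C2 y.1 (y.2.1.move T.length p) (y.2.2.apply st) := by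
  constructor
  · rintro ⟨t, ⟨y, hy, rfl⟩, rfl⟩
    exact ⟨y, hy, rfl⟩
  · rintro ⟨y, hy, rfl⟩
    exact ⟨_, ⟨y, hy, rfl⟩, rfl⟩

/-- corresponding configurations -/
def P1 (c : PCfg univ1.Q (Fin 1) Bool) (d : PCfg (univ true).Q (Fin 1) Bool) : Prop :=
  (∃ q p st, q ≠ .gs ∧ q ≠ .gl ∧ c = C1 q p st ∧ d = C2 q p st) ∨
  (∃ st, c = C1 .gr 1 st ∧ d = C2 .gs 1 st)

include hT hd in
theorem p1_forth {c : PCfg univ1.Q (Fin 1) Bool} {d : PCfg (univ true).Q (Fin 1) Bool}
    {c' : PCfg univ1.Q (Fin 1) Bool} (hP : P1 c d) (hs : univ1.Step T c c') :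
    ∃ d', (univ true).Step T d d' ∧ P1 c' d' := by
  obtain ⟨T', rfl⟩ := hd
  rcases hP with ⟨q, p, st, h4, h5, rfl, rfl⟩ | ⟨st, rfl, rfl⟩
  · rw [step_C1] at hs
    obtain ⟨y, hy, rfl⟩ := hs
    unfold uStep1 at hy
    cases ha : symAt (UL.dol :: T') p with
    | left =>
      rw [ha] at hy
      obtain ⟨hq, rfl⟩ := hy
      have hp := symAt_eq_left.1 ha
      subst hp
      refine ⟨_, (step_C2 _ _ _ _ _).2 ⟨(.gs, Dir.R, Op.keep), ?_, rfl⟩, ?_⟩
      · rw [ha]
        exact ⟨hq, rfl⟩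
      · refine Or.inr ⟨st, ?_, ?_⟩ <;> simp [C1, C2, Dir.move, Op.apply]
    | right => rw [ha] at hy; exact absurd hy (Set.notMem_empty _)
    | letter l =>
      rw [ha] at hy
      obtain ⟨_, _, h6, h7, h8⟩ := hy
      refine ⟨_, (step_C2 _ _ _ _ _).2 ⟨y, ?_, rfl⟩, ?_⟩
      · rw [ha]; exact h8
      · have := uStep_new h4 h5 h6 h7 h8
        exact Or.inl ⟨_, _, _, this.1, this.2, rfl, rfl⟩
  · rw [step_C1] at hs
    obtain ⟨y, hy, rfl⟩ := hs
    have ha : symAt (UL.dol :: T') 1 = Sym.letter UL.dol := by simp [symAt]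
    rw [ha] at hy
    obtain ⟨_, _, _, _, h8⟩ := hy
    have h8 : uAct .gr .dol = some y := h8
    simp only [uAct, Option.some.injEq] at h8
    subst h8
    refine ⟨_, (step_C2 _ _ _ _ _).2 ⟨(.find, Dir.R, Op.keep), ?_, rfl⟩, ?_⟩
    · rw [ha]
      change uAct .gs .dol = some _
      rfl
    · exact Or.inl ⟨_, _, _, by simp, by simp, rfl, rfl⟩

include hT hd in
theorem p1_back {c : PCfg univ1.Q (Fin 1) Bool} {d : PCfg (univ true).Q (Fin 1) Bool}
    {d' : PCfg (univ true).Q (Fin 1) Bool} (hP : P1 c d) (hs : (univ true).Step T d d') :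
    ∃ c', univ1.Step T c c' ∧ P1 c' d' := by
  have hmem := fun (p : ℕ) (l : UL) (h : symAt T p = Sym.letter l) => hT l (symAt_mem h)
  obtain ⟨T', rfl⟩ := hd
  rcases hP with ⟨q, p, st, h4, h5, rfl, rfl⟩ | ⟨st, rfl, rfl⟩
  · rw [step_C2] at hs
    obtain ⟨y, hy, rfl⟩ := hs
    cases ha : symAt (UL.dol :: T') p with
    | left =>
      rw [ha] at hy
      obtain ⟨hq, rfl⟩ := hy
      have hp := symAt_eq_left.1 ha
      subst hp
      refine ⟨_, (step_C1 _ _ _ _ _).2 ⟨(.gr, Dir.R, Op.keep), ?_, rfl⟩, ?_⟩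
      · rw [ha]
        exact ⟨hq, rfl⟩
      · refine Or.inr ⟨st, ?_, ?_⟩ <;> simp [C1, C2, Dir.move, Op.apply]
    | right => rw [ha] at hy; exact absurd hy (Set.notMem_empty _)
    | letter l =>
      have h67 := hmem _ l ha
      rw [ha] at hy
      refine ⟨_, (step_C1 _ _ _ _ _).2 ⟨y, ?_, rfl⟩, ?_⟩
      · rw [ha]; exact ⟨h4, h5, h67.1, h67.2, hy⟩
      · have := uStep_new h4 h5 h67.1 h67.2 hy
        exact Or.inl ⟨_, _, _, this.1, this.2, rfl, rfl⟩
  · rw [step_C2] at hs
    obtain ⟨y, hy, rfl⟩ := hs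
    have ha : symAt (UL.dol :: T') 1 = Sym.letter UL.dol := by simp [symAt]
    rw [ha] at hy
    have h8 : uAct .gs .dol = some y := hy
    simp only [uAct, Option.some.injEq] at h8
    subst h8
    refine ⟨_, (step_C1 _ _ _ _ _).2 ⟨(.find, Dir.R, Op.keep), ?_, rfl⟩, ?_⟩
    · rw [ha]
      refine ⟨by simp, by simp, by simp, by simp, ?_⟩
      change uAct .gr .dol = some _
      rfl
    · exact Or.inl ⟨_, _, _, by simp, by simp, rfl, rfl⟩

include hT hd in
/-- On tapes without the letters `dL` and `dS` the two universal automata agree. -/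
theorem univ1_iff : T ∈ univ1.lang ↔ T ∈ (univ true).lang := by
  rw [PDA.mem_lang, PDA.mem_lang]
  have h0 : P1 univ1.start (univ true).start :=
    Or.inl ⟨.init, 0, [], by simp, by simp, rfl, rfl⟩
  constructor
  · rintro ⟨c, hc, hacc⟩
    obtain ⟨d, hd', hP⟩ := simulate P1 (fun a b a' h h' => p1_forth T hT hd h h') h0 hc
    refine ⟨d, hd', ?_⟩
    rcases hP with ⟨q, p, st, _, _, rfl, rfl⟩ | ⟨st, rfl, rfl⟩
    · exact hacc
    · have h9 : UQ.gr = UQ.acc := hacc
      cases h9
  · rintro ⟨d, hd', hacc⟩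
    obtain ⟨c, hc, hP⟩ := simulate (fun d c => P1 c d)
      (fun a b a' h h' => p1_back T hT hd h h') h0 hd'
    refine ⟨c, hc, ?_⟩
    rcases hP with ⟨q, p, st, _, _, rfl, rfl⟩ | ⟨st, rfl, rfl⟩
    · exact hacc
    · have h9 : UQ.gs = UQ.acc := hacc
      cases h9

end

/-! ### Codes of automata which always move to the right -/

/-- Real time: the head moves to the right in each step; no step on the right endmarker. -/
def RT {β Γ : Type} (M : PDA β (Fin 1) Γ) : Prop :=
  ∀ q a g, ∀ t ∈ M.step q a g, a 0 ≠ Sym.right ∧ t.2.1 0 = Dir.R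

variable {β Γ : Type} [Finite Γ] {M : PDA β (Fin 1) Γ} (K : Cod M)

theorem item_rt (hM : RT M) (a : Sym β) (q : M.Q) (g : Option Γ) :
    ∀ x ∈ K.item a q g, x ≠ UL.dL ∧ x ≠ UL.dS := by
  intro x hx
  unfold Cod.item at hx
  split_ifs at hx
  · simp at hx; subst hx; simp
  · rw [List.mem_flatMap] at hx
    obtain ⟨t, ht, hx⟩ := hx
    rw [mem_acts] at ht
    obtain ⟨h1, h2⟩ := hM _ _ _ t ht
    rw [List.mem_append] at hx
    rcases hx with hx | hx
    · unfold Cod.act at hx
      simp only [List.mem_append, List.mem_map, List.mem_singleton] at hx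
      rcases hx with hx | ⟨y, _, rfl⟩ | rfl
      · unfold Cod.ppre at hx
        split at hx
        · split at hx
          · simp at hx
          · simp at hx; subst hx; simp
        · simp at hx
      · cases y <;> simp [lt]
      · rw [h2]
        cases a with
        | left => simp [Cod.dlet]
        | letter l => simp [Cod.dlet]
        | right => exact absurd rfl h1
    · simp at hx; subst hx; simp

theorem blk_rt (hM : RT M) (b : ℕ) (a : Sym β) : ∀ x ∈ K.blk b a, x ≠ UL.dL ∧ x ≠ UL.dS := by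
  intro x hx
  unfold Cod.blk at hx
  rw [List.mem_cons, List.mem_append] at hx
  rcases hx with rfl | hx | hx
  · simp
  · unfold Cod.body Cod.its at hx
    simp only [List.mem_flatMap, List.mem_map, List.mem_append] at hx
    obtain ⟨s, ⟨j, _, rfl⟩, hx | hx⟩ := hx
    · unfold Cod.item' at hx
      split_ifs at hx with h
      · exact item_rt K hM a _ _ x hx
      · simp at hx
    · simp at hx; subst hx; simp
  · have := List.eq_of_mem_replicate hx
    subst this
    simp

/-- A finite automaton for the language of the one-way universal automaton gives, with the same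
number of heads, finite automata for the languages of all real time pushdown automata. -/
theorem hardest1 [Finite β] (hM : RT M) {m : ℕ} (F : FA UL (Fin m)) (hF : F.lang = univ1.lang) :
    ∃ F' : FA β (Fin m), F'.lang = M.lang := by
  obtain ⟨K⟩ := exists_cod M
  obtain ⟨b, hb⟩ : ∃ b, ∀ a : Sym β, (K.body a).length + 1 ≤ b := by
    obtain ⟨b, hb⟩ := (Set.finite_range (fun a : Sym β => (K.body a).length + 1)).bddAbove
    exact ⟨b, fun a => hb ⟨a, rfl⟩⟩
  have hpos : 0 < b := lt_of_lt_of_le (Nat.succ_pos _) (hb Sym.left)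
  have hlen : ∀ a : Sym β, (K.blk b a).length = b := K.length_blk hb
  let V := blkVT hpos (K.blk b) hlen
  refine ⟨(F.pull V).reindex (Equiv.prodUnique (Fin m) (Fin 1)), ?_⟩
  rw [FA.lang_reindex]
  ext w
  rw [F.lang_pull V w, hF, ← K.univ_spec b w true hb (Or.inl rfl)]
  apply univ1_iff
  · intro l hl
    unfold blkTape at hl
    rw [List.mem_flatMap] at hl
    obtain ⟨i, _, hl⟩ := hl
    exact blk_rt K hM b _ l hl
  · unfold blkTape
    rw [List.range_succ_eq_map, List.flatMap_cons]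
    exact ⟨_, rfl⟩

end Pool.Agent.V8H47.OW
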